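import Pool.Agent.Y413.PO.Poset

set_option autoImplicit false

namespace Pool.Agent.Results.MP_219f5b_co.PosetsBelowTheTop

open Pool.Agent.H160R2.CC Pool.Agent.H160R2.CC.MGraph

/-- every graph maps to `K₂` -/
lemma to_K2 (G : MGraph) : Succ G K2 := by
  refine succ_iff.2 ⟨fun _ => (), fun φ hφ => ?_⟩
  have h : (φ ∘ fun _ : G.E => (() : K2.E)) = fun _ => 0 := by
    funext e
    exact K2_flow hφ ()
  rw [h]
  exact Flow.zero G

/-- the minimal graphs of MP_03045a_co are the graphs equivalent to `K₂` -/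
lemma minimal_iff' (G : MGraph) : G.IsMinimal ↔ Succ K2 G := by
  constructor
  · intro h
    exact (h K2 (to_K2 G)).2
  · intro h H hGH
    exact ⟨hGH, Pool.Agent.Y413.succ_trans (to_K2 H) h⟩

/-- Let `a` be a graph with at least one edge and with `a < K₂` in the cycle-continuous order. Then
every countable partial order embeds in the interval `(a, K₂)`. In particular the interval contains
an infinite antichain. -/
theorem result : ∀ a : MGraph, Nonempty a.E → Succ a K2 → ¬ Succ K2 a →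
    ∀ (P : Type) [PartialOrder P] [Countable P], ∃ G : P → MGraph,
      (∀ p, Nonempty (G p).E ∧ (Succ a (G p) ∧ ¬ Succ (G p) a) ∧
        (Succ (G p) K2 ∧ ¬ Succ K2 (G p))) ∧
      ∀ p q, Succ (G p) (G q) ↔ p ≤ q := by
  intro a ha _ hK P _ _
  obtain ⟨G, h1, h2⟩ := Pool.Agent.Y413.PO.poset_below a (fun h => hK ((minimal_iff' a).1 h)) P
  refine ⟨G, fun p => ?_, h2⟩
  obtain ⟨h3, h4, h5⟩ := h1 p
  obtain ⟨f, -⟩ := succ_iff.1 h4
  exact ⟨ha.map f, ⟨h4, h5⟩, to_K2 _, fun h => h3 ((minimal_iff' _).2 h)⟩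

end Pool.Agent.Results.MP_219f5b_co.PosetsBelowTheTop
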